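import Pool.Agent.Helper58.CY.Defs

/-! C5G: definitions (MP_5d2531_al, degree 5 in all characteristics), helper76.
Paper: /team-store/C5_full_helper76_v2.md -/

namespace Pool.Agent.Helper76.C5

open Matrix Finset Pool.Agent.Helper58.CY

section Arr

variable {F : Type*} {Ω : Type*} [Field F] [Field Ω] [Algebra F Ω]

/-- entrywise product of an array with a matrix -/
def had (f : Fin 5 → Fin 5 → Ω) (d : M5 Ω) : M5 Ω := Matrix.of fun i j => f i j * d i j

/-- arrays whose entrywise product maps `D` to `D` -/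
def Arr (D : Subalgebra F (M5 Ω)) : Subalgebra F (Fin 5 → Fin 5 → Ω) where
  carrier := {f | ∀ d ∈ D, had f d ∈ D}
  mul_mem' := by
    intro f g hf hg d hd
    have h := hf _ (hg d hd)
    have e : had (f * g) d = had f (had g d) := by
      ext i j
      simp [had, mul_assoc]
    rw [e]
    exact h
  add_mem' := by
    intro f g hf hg d hd
    have h := D.add_mem (hf d hd) (hg d hd)
    have e : had (f + g) d = had f d + had g d := by
      ext i j
      simp [had, add_mul]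
    rw [e]
    exact h
  algebraMap_mem' := by
    intro c d hd
    have h := D.smul_mem hd c
    have e : had (algebraMap F (Fin 5 → Fin 5 → Ω) c) d = c • d := by
      ext i j
      simp [had, Algebra.smul_def]
    rw [e]
    exact h

lemma mem_Arr (D : Subalgebra F (M5 Ω)) (f : Fin 5 → Fin 5 → Ω) :
    f ∈ Arr D ↔ ∀ d ∈ D, had f d ∈ D := Iff.rfl

end Arr

section Om

variable {Ω : Type*} [CommRing Ω]

/-- `ω(u,v,w) = tr (u h v h w h) - tr (u h w h v h)` -/
def om (h : M5 Ω) (u v w : Fin 5 → Ω) : Ω :=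
  ∑ i, ∑ j, ∑ k, (h i j * h j k * h k i - h i k * h k j * h j i) * (u i * v j * w k)

/-- minus the second coefficient: sum of products `M_ij M_ji` over the ten pairs -/
def E2 (M : M5 Ω) : Ω :=
  M 0 1 * M 1 0 + M 0 2 * M 2 0 + M 0 3 * M 3 0 + M 0 4 * M 4 0 + M 1 2 * M 2 1 +
  M 1 3 * M 3 1 + M 1 4 * M 4 1 + M 2 3 * M 3 2 + M 2 4 * M 4 2 + M 3 4 * M 4 3

/-- the two 3-cycles on `i, j, k` -/
def cyc3 (M : M5 Ω) (i j k : Fin 5) : Ω := M i j * M j k * M k i + M i k * M k j * M j i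

/-- third coefficient of a zero-diagonal matrix: sum over the ten triples -/
def E3 (M : M5 Ω) : Ω :=
  cyc3 M 0 1 2 + cyc3 M 0 1 3 + cyc3 M 0 1 4 + cyc3 M 0 2 3 + cyc3 M 0 2 4 +
  cyc3 M 0 3 4 + cyc3 M 1 2 3 + cyc3 M 1 2 4 + cyc3 M 1 3 4 + cyc3 M 2 3 4

end Om

/-- the matrix `x = r⁻¹ (s h r - r h s)` up to sign: entries `r_i⁻¹ (r_i s_j - r_j s_i) h_ij` -/
def XX {Ω : Type*} [Field Ω] (h : M5 Ω) (r s : Fin 5 → Ω) : M5 Ω :=
  Matrix.of fun i j => (r i)⁻¹ * ((r i * s j - r j * s i) * h i j)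

end Pool.Agent.Helper76.C5
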